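import Mathlib
import Pool.Agent.H630R2.LA.Upper

set_option autoImplicit false

/-!
Numbers of moves.
-/

namespace Pool.Agent.Y527.LA

open Relation
open Pool.Agent.H630R2.LA
open Pool.Agent.H630R2.LA.Cmd

/-- `Steps r k a b`: from `a` to `b` in `k` steps of the relation `r`. -/
inductive Steps {α : Type} (r : α → α → Prop) : ℕ → α → α → Prop
  | zero (a : α) : Steps r 0 a a
  | tail (k : ℕ) (a b c : α) (h : Steps r k a b) (h' : r b c) : Steps r (k + 1) a c

section steps

variable {α : Type} {r : α → α → Prop}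

theorem Steps.single {a b : α} (h : r a b) : Steps r 1 a b :=
  Steps.tail 0 a a b (Steps.zero a) h

theorem Steps.trans {k l : ℕ} {a b c : α} (h1 : Steps r k a b) (h2 : Steps r l b c) :
    Steps r (k + l) a c := by
  induction h2 with
  | zero b => exact h1
  | tail l b d c _ h' ih => exact Steps.tail (k + l) a d c (ih h1) h'

theorem Steps.toRTG {k : ℕ} {a b : α} (h : Steps r k a b) : ReflTransGen r a b := by
  induction h with
  | zero a => exact ReflTransGen.refl
  | tail k a b c _ h' ih => exact ih.tail h'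

theorem Steps.head {k : ℕ} {a b c : α} (h : r a b) (h2 : Steps r k b c) : Steps r (k + 1) a c := by
  have := (Steps.single h).trans h2
  rwa [Nat.add_comm 1 k] at this

theorem Steps.cases_head {k : ℕ} {a c : α} (h : Steps r k a c) :
    (k = 0 ∧ a = c) ∨ ∃ l b, k = l + 1 ∧ r a b ∧ Steps r l b c := by
  induction h with
  | zero a => exact Or.inl ⟨rfl, rfl⟩
  | tail k a b c _ h' ih =>
    right
    rcases ih with ⟨rfl, rfl⟩ | ⟨l, d, rfl, h1, h2⟩
    · exact ⟨0, c, rfl, h', Steps.zero c⟩
    · exact ⟨l + 1, d, rfl, h1, Steps.tail l d b c h2 h'⟩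

/-- If some computation is stuck after `k` steps then all computations have at most `k` steps. -/
theorem Steps.le_of_stuck (hu : ∀ a b c, r a b → r a c → b = c) {k : ℕ} {a b : α}
    (h : Steps r k a b) (hs : ∀ c, ¬ r b c) : ∀ {l : ℕ} {c : α}, Steps r l a c → l ≤ k := by
  induction k generalizing a with
  | zero =>
    intro l c hl
    rcases Steps.cases_head h with ⟨_, rfl⟩ | ⟨_, _, h1, _⟩
    · rcases Steps.cases_head hl with ⟨rfl, _⟩ | ⟨l', d, rfl, h2, _⟩
      · exact le_rfl
      · exact absurd h2 (hs d)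
    · omega
  | succ k ih =>
    intro l c hl
    rcases Steps.cases_head hl with ⟨rfl, _⟩ | ⟨l', d, rfl, h2, h3⟩
    · omega
    · rcases Steps.cases_head h with ⟨h1, _⟩ | ⟨k', d', h1, h4, h5⟩
      · omega
      · have hk : k' = k := by omega
        subst hk
        have := hu a d d' h2 h4
        subst this
        have := ih h5 h3
        omega

end steps

/-- Programs without loops. -/
def NL {S : Type} : Cmd S → Prop
  | .ret _ => True
  | .act f _ => ∀ σ, f σ ≠ none
  | .ite c t e => NL c ∧ NL t ∧ NL e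

section impl

variable {A : Type} {strict : Prop} {M : LimAut A}

theorem runN {τ : ℕ → Sym M.W} {hi : ℕ} {c : Cmd (Sym M.W)} {x y : ℕ} {b : Bool}
    (h : Run τ hi c x b y) : NL c → ∀ (emb : c.St → M.Q) (ex : Bool → M.Q),
    Impl strict M c emb ex →
    ∃ k, k ≤ c.cnt ∧
      Steps (Fr strict M τ hi) k (Sum.elim emb ex c.entry, x) (ex b, y) := by
  induction h with
  | ret b x => intro _ emb ex _; exact ⟨0, le_rfl, Steps.zero _⟩
  | stop f g x y b hx hf h1 h2 =>
    intro _ emb ex hi'
    refine ⟨1, le_rfl, Steps.single ⟨hx, g (τ x), ?_, h1, h2⟩⟩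
    have h3 := hi' () (τ x)
    have h4 : (act f g).next () (τ x) = Sum.inr b := by
      simp only [next, hf]
    rw [h4] at h3
    exact h3
  | loop f g x y z b hx hf h1 h2 hr ih =>
    intro hnl
    exact absurd hf (hnl (τ x))
  | iteT c t e x y z b h1 h2 ih1 ih2 =>
    intro hnl emb ex hi'
    let emb1 : c.St → M.Q := fun s => emb (Sum.inl s)
    let emb2 : t.St → M.Q := fun s => emb (Sum.inr (Sum.inl s))
    let emb3 : e.St → M.Q := fun s => emb (Sum.inr (Sum.inr s))
    let ex1 : Bool → M.Q := fun b1 => match b1 with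
      | true => Sum.elim emb2 ex t.entry
      | false => Sum.elim emb3 ex e.entry
    have hI1 : Impl strict M c emb1 ex1 := by
      intro s σ
      have h3 := hi' (Sum.inl s) σ
      have h4 : Sum.elim emb ex ((ite c t e).next (Sum.inl s) σ) =
          Sum.elim emb1 ex1 (c.next s σ) := by
        simp only [next]
        rcases c.next s σ with s' | (_ | _)
        · rfl
        · simp only [Sum.elim_inr, ex1]
          rcases e.entry with s'' | b'' <;> rfl
        · simp only [Sum.elim_inr, ex1]
          rcases t.entry with s'' | b'' <;> rfl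
      rw [h4] at h3
      exact h3
    have hI2 : Impl strict M t emb2 ex := by
      intro s σ
      have h3 := hi' (Sum.inr (Sum.inl s)) σ
      have h4 : Sum.elim emb ex ((ite c t e).next (Sum.inr (Sum.inl s)) σ) =
          Sum.elim emb2 ex (t.next s σ) := by
        simp only [next]
        rcases t.next s σ with s'' | b'' <;> rfl
      rw [h4] at h3
      exact h3
    have h5 : Sum.elim emb ex (ite c t e).entry = Sum.elim emb1 ex1 c.entry := by
      simp only [entry]
      rcases c.entry with s' | (_ | _)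
      · rfl
      · simp only [Sum.elim_inr, ex1]
        rcases e.entry with s'' | b'' <;> rfl
      · simp only [Sum.elim_inr, ex1]
        rcases t.entry with s'' | b'' <;> rfl
    rw [h5]
    obtain ⟨k1, hk1, h6⟩ := ih1 hnl.1 emb1 ex1 hI1
    obtain ⟨k2, hk2, h7⟩ := ih2 hnl.2.1 emb2 ex hI2
    refine ⟨k1 + k2, ?_, h6.trans h7⟩
    simp only [cnt]
    omega
  | iteF c t e x y z b h1 h2 ih1 ih2 =>
    intro hnl emb ex hi'
    let emb1 : c.St → M.Q := fun s => emb (Sum.inl s)
    let emb2 : t.St → M.Q := fun s => emb (Sum.inr (Sum.inl s))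
    let emb3 : e.St → M.Q := fun s => emb (Sum.inr (Sum.inr s))
    let ex1 : Bool → M.Q := fun b1 => match b1 with
      | true => Sum.elim emb2 ex t.entry
      | false => Sum.elim emb3 ex e.entry
    have hI1 : Impl strict M c emb1 ex1 := by
      intro s σ
      have h3 := hi' (Sum.inl s) σ
      have h4 : Sum.elim emb ex ((ite c t e).next (Sum.inl s) σ) =
          Sum.elim emb1 ex1 (c.next s σ) := by
        simp only [next]
        rcases c.next s σ with s' | (_ | _)
        · rfl
        · simp only [Sum.elim_inr, ex1]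
          rcases e.entry with s'' | b'' <;> rfl
        · simp only [Sum.elim_inr, ex1]
          rcases t.entry with s'' | b'' <;> rfl
      rw [h4] at h3
      exact h3
    have hI2 : Impl strict M e emb3 ex := by
      intro s σ
      have h3 := hi' (Sum.inr (Sum.inr s)) σ
      have h4 : Sum.elim emb ex ((ite c t e).next (Sum.inr (Sum.inr s)) σ) =
          Sum.elim emb3 ex (e.next s σ) := by
        simp only [next]
        rcases e.next s σ with s'' | b'' <;> rfl
      rw [h4] at h3
      exact h3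
    have h5 : Sum.elim emb ex (ite c t e).entry = Sum.elim emb1 ex1 c.entry := by
      simp only [entry]
      rcases c.entry with s' | (_ | _)
      · rfl
      · simp only [Sum.elim_inr, ex1]
        rcases e.entry with s'' | b'' <;> rfl
      · simp only [Sum.elim_inr, ex1]
        rcases t.entry with s'' | b'' <;> rfl
    rw [h5]
    obtain ⟨k1, hk1, h6⟩ := ih1 hnl.1 emb1 ex1 hI1
    obtain ⟨k2, hk2, h7⟩ := ih2 hnl.2.2 emb3 ex hI2
    refine ⟨k1 + k2, ?_, h6.trans h7⟩
    simp only [cnt]
    omega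

theorem liftN {n m : ℕ} (hm : m ≤ n + 1) {k : ℕ} {x y : M.Q × ℕ} {τ : ℕ → Sym M.W}
    (h0 : τ 0 = .lm) (h : Steps (Fr strict M τ m) k x y) (S : Set ℕ)
    (hS : ∀ i, 1 ≤ i → (i ∈ S ↔ i ≤ m)) :
    ∃ S' : Set ℕ, (∀ i, 1 ≤ i → (i ∈ S' ↔ i ≤ m)) ∧
      Steps (Step strict n) k ⟨x.1, x.2, τ, S⟩ ⟨y.1, y.2, τ, S'⟩ := by
  induction h with
  | zero x => exact ⟨S, hS, Steps.zero _⟩
  | tail k x y z _ hstep ih =>
    obtain ⟨S', hS', hr⟩ := ih
    obtain ⟨h1, d, ⟨b, h2, h3⟩, h4, h5⟩ := hstep
    refine ⟨insert y.2 S', ?_, Steps.tail _ _ _ _ hr ?_⟩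
    · intro i hi
      rw [Set.mem_insert_iff, hS' i hi]
      constructor
      · rintro (h | h)
        · omega
        · exact h
      · exact fun h => Or.inr h
    · refine ⟨by simpa using h1.trans hm, z.1, b, d, h2, fun hs _ => h3 hs, rfl, fun _ => rfl, ?_,
        rfl, h4, h5⟩
      intro hn
      have hy0 : y.2 = 0 := by
        by_contra hne
        exact hn ((hS' y.2 (by omega)).2 h1)
      funext i
      by_cases hi : i = y.2
      · subst hi
        simp only [Function.update_self]
        rw [hy0, h0]; rfl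
      · rw [Function.update_of_ne hi]

end impl

section nl

variable {S : Type}

theorem NL_mvs (d : Bool) (n : ℕ) {c : Cmd S} (h : NL c) : NL (mvs d n c) := by
  induction n with
  | zero => exact h
  | succ n ih => exact ⟨fun _ => by simp, ih, trivial⟩

theorem NL_thenRight {c : Cmd S} (h : NL c) (n : ℕ) : NL (thenRight c n) :=
  ⟨h, NL_mvs _ _ trivial, NL_mvs _ _ trivial⟩

theorem NL_thenLeft {c : Cmd S} (h : NL c) (n : ℕ) : NL (thenLeft c n) :=
  ⟨h, NL_mvs _ _ trivial, NL_mvs _ _ trivial⟩

theorem NL_test (f : S → Bool) : NL (test f) := NL_thenRight (fun _ => by simp) 1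

theorem NL_orL {ι : Type} (l : List ι) {f : ι → Cmd S} (h : ∀ i, NL (f i)) : NL (orL l f) := by
  induction l with
  | nil => exact trivial
  | cons a l ih => exact ⟨h a, trivial, ih⟩

theorem NL_reach {P : Type} [DecidableEq P] {l : List P} {lr : S → P → P → Bool} (h : ℕ) :
    ∀ (n : ℕ) (p q : P), NL (reach l lr h n p q) := by
  induction h with
  | zero =>
    intro n p q
    unfold reach
    split_ifs
    · exact trivial
    · exact NL_test _
  | succ h ih =>
    intro n p q
    unfold reach
    split_ifs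
    · exact ih n p q
    · exact NL_orL l fun m => ⟨ih _ _ _, NL_mvs _ _ (NL_thenLeft (ih _ _ _) _), trivial⟩

theorem NL_memq {B h : ℕ} {bit : S → Bool} {lr : S → Fin B → Fin B → Bool} {n : ℕ} {q : Fin B} :
    NL (memq B h bit lr n q) :=
  NL_orL _ fun m => ⟨NL_mvs _ _ (NL_thenLeft (NL_test _) _), NL_reach _ _ _ _, trivial⟩

theorem NL_mainP {A : Type} {h : ℕ} {rel : A → Fin (2 ^ h) → Fin (2 ^ h) → Bool}
    {p0 : Fin (2 ^ h)} (k : Fin (2 ^ h)) : NL (mainP h rel p0 k) :=
  NL_mvs _ _ ⟨fun _ => by simp, NL_mvs _ _ trivial, NL_mvs _ _ (NL_thenRight NL_memq _)⟩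

theorem NL_nextP {A : Type} {h : ℕ} {rel : A → Fin (2 ^ h) → Fin (2 ^ h) → Bool}
    {p0 : Fin (2 ^ h)} (k : Fin (2 ^ h)) : NL (nextP h rel p0 k) :=
  NL_mvs _ _ (NL_mainP k)

theorem NL_finP {A : Type} {h : ℕ} {rel : A → Fin (2 ^ h) → Fin (2 ^ h) → Bool}
    {p0 : Fin (2 ^ h)} {facc : Fin (2 ^ h) → Bool} (k : Fin (2 ^ h)) :
    NL (finP h rel p0 facc k) := by
  refine NL_mvs _ _ ⟨fun _ => by simp, NL_thenRight (NL_orL _ fun f => ?_) _,
    NL_mvs _ _ (NL_thenRight (NL_orL _ fun f => ?_) _)⟩
  · split_ifs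
    · exact NL_reach _ _ _ _
    · exact trivial
  · split_ifs
    · exact NL_memq
    · exact trivial

end nl

end Pool.Agent.Y527.LA
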