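import Mathlib
import Pool.Agent.Y527.LA.Steps

set_option autoImplicit false

/-!
The deterministic machine with an arbitrary final program, its language and its running time.
-/

namespace Pool.Agent.Y527.LA

open Relation
open Pool.Agent.H630R2.LA
open Pool.Agent.H630R2.LA.Cmd

section gen

variable {A : Type} (h : ℕ) (rel : A → Fin (2 ^ h) → Fin (2 ^ h) → Bool) (p0 : Fin (2 ^ h))
  (fin : Fin (2 ^ h) → Cmd (Sym (WS A)))

/-- The states. -/
def QG : Type :=
  (Fin (2 ^ h) × Bool) ⊕ ((Σ k : Fin (2 ^ h), (nextP h rel p0 k).St) ⊕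
    ((Σ k : Fin (2 ^ h), (fin k).St) ⊕ Bool))

def wrG (k : Fin (2 ^ h)) (b : Bool) : QG h rel p0 fin := Sum.inl (k, b)

def nxG (k : Fin (2 ^ h)) (s : (nextP h rel p0 k).St) : QG h rel p0 fin :=
  Sum.inr (Sum.inl ⟨k, s⟩)

def fiG (k : Fin (2 ^ h)) (s : (fin k).St) : QG h rel p0 fin :=
  Sum.inr (Sum.inr (Sum.inl ⟨k, s⟩))

def enG (b : Bool) : QG h rel p0 fin := Sum.inr (Sum.inr (Sum.inr b))

/-- The moves. -/
def trG (q : QG h rel p0 fin) (σ : Sym (WS A)) : Option (QG h rel p0 fin × WS A × Bool) :=
  match q with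
  | Sum.inl (k, b) => match σ with
    | .sym (.raw a) => some (Sum.elim (nxG h rel p0 fin (ix h (k.val + 1)))
        (wrG h rel p0 fin (ix h (k.val + 1))) (nextP h rel p0 (ix h (k.val + 1))).entry,
        .mark a b, false)
    | .rm => some (Sum.elim (fiG h rel p0 fin k) (enG h rel p0 fin)
        (fin k).entry, .dum, false)
    | _ => none
  | Sum.inr (Sum.inl ⟨k, s⟩) => some (Sum.elim (nxG h rel p0 fin k) (wrG h rel p0 fin k)
        ((nextP h rel p0 k).next s σ), keep σ, (nextP h rel p0 k).dir s σ)
  | Sum.inr (Sum.inr (Sum.inl ⟨k, s⟩)) => some (Sum.elim (fiG h rel p0 fin k)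
        (enG h rel p0 fin) ((fin k).next s σ), keep σ, (fin k).dir s σ)
  | Sum.inr (Sum.inr (Sum.inr b)) => match b, σ with
    | true, .rm => some (enG h rel p0 fin true, .dum, true)
    | _, _ => none

theorem finite_QG : Finite (QG h rel p0 fin) := by
  unfold QG
  infer_instance

/-- The deterministic machine. -/
def detG [Finite A] : LimAut A where
  Q := QG h rel p0 fin
  W := WS A
  finQ := finite_QG h rel p0 fin
  finW := finite_WS A
  inp := WS.raw
  inp_inj := by
    intro a b hab
    cases hab
    rfl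
  δ := fun q σ => {x | trG h rel p0 fin q σ = some x}
  q0 := wrG h rel p0 fin (ix h 0) (decide (ix h 0 = p0))
  F := {enG h rel p0 fin true}

variable [Finite A]

theorem detG_det : (detG h rel p0 fin : LimAut A).Deterministic := by
  intro q σ x hx y hy
  have h1 : trG h rel p0 fin q σ = some x := hx
  have h2 : trG h rel p0 fin q σ = some y := hy
  rw [h1] at h2
  exact Option.some.inj h2

variable {h rel p0 fin} {strict : Prop}

theorem implG_next (k : Fin (2 ^ h)) : Impl strict (detG h rel p0 fin : LimAut A)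
    (nextP h rel p0 k) (nxG h rel p0 fin k) (wrG h rel p0 fin k) := by
  intro s σ
  exact ⟨keep σ, rfl, fun _ => rewrite_keep σ⟩

theorem implG_fin (k : Fin (2 ^ h)) : Impl strict (detG h rel p0 fin : LimAut A)
    (fin k) (fiG h rel p0 fin k) (enG h rel p0 fin) := by
  intro s σ
  exact ⟨keep σ, rfl, fun _ => rewrite_keep σ⟩

/-- The main loop. -/
theorem loopG (hh : 1 ≤ h) (C : ℕ) (hC : ∀ k, (nextP h rel p0 k).cnt + 1 ≤ C) (w : List A)
    (t : ℕ) (ht : t ≤ w.length) :
    ∃ (τ : ℕ → Sym (WS A)) (S : Set ℕ) (b : Bool) (N : ℕ), N ≤ t * C ∧ Ann h rel p0 w τ t ∧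
      (∀ i, t < i → τ i = initTape (detG h rel p0 fin) w i) ∧
      (∀ i, 1 ≤ i → (i ∈ S ↔ i ≤ t)) ∧
      (b = true ↔ nr h rel p0 w ((t / 2 ^ h) * 2 ^ h) (ix h t)) ∧
      Steps (Step strict w.length) N (init (detG h rel p0 fin) w)
        ⟨wrG h rel p0 fin (ix h t) b, t + 1, τ, S⟩ := by
  induction t with
  | zero =>
    refine ⟨initTape (detG h rel p0 fin) w, ∅, decide (ix h 0 = p0), 0, Nat.zero_le _, ⟨rfl, ?_⟩,
      fun _ _ => rfl, ?_, ?_, Steps.zero _⟩
    · intro i hi; exact absurd hi (Nat.not_lt_zero _)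
    · intro i hi; simp; omega
    · rw [Nat.zero_div, Nat.zero_mul, nr_zero]
      simp
  | succ t ih =>
    obtain ⟨τ, S, b, N, hN, hA, hτ, hS, hb, hreach⟩ := ih (by omega)
    have hlt : t < w.length := by omega
    have hwt : w[t]? = some w[t] := List.getElem?_eq_getElem hlt
    have hcell : τ (t + 1) = .sym (.raw w[t]) := by
      rw [hτ (t + 1) (by omega)]
      simp only [initTape, hwt]
      rfl
    set τ' : ℕ → Sym (WS A) := Function.update τ (t + 1) (.sym (.mark w[t] b)) with hτ'
    have hagree : ∀ i, i ≤ t → τ' i = τ i := by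
      intro i hi
      rw [hτ', Function.update_of_ne]
      omega
    have hnew : τ' (t + 1) = .sym (.mark w[t] b) := by
      rw [hτ', Function.update_self]
    have hA' : Ann h rel p0 w τ' (t + 1) := by
      refine ⟨by rw [hagree 0 (by omega)]; exact hA.1, ?_⟩
      intro i hi
      rcases Nat.lt_or_ge i t with h1 | h1
      · rw [hagree (i + 1) (by omega)]
        exact hA.2 i h1
      · have : i = t := by omega
        subst this
        exact ⟨w[i], b, hwt, hnew, hb⟩
    have hnot : t + 1 ∉ S := by
      intro h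
      have := (hS (t + 1) (by omega)).1 h
      omega
    have hS1 : ∀ i, 1 ≤ i → (i ∈ insert (t + 1) S ↔ i ≤ t + 1) := by
      intro i hi
      rw [Set.mem_insert_iff, hS i hi]
      omega
    have hk' : ix h ((ix h t).val + 1) = ix h (t + 1) := by
      apply Fin.ext
      show (t % 2 ^ h + 1) % 2 ^ h = (t + 1) % 2 ^ h
      rw [Nat.mod_add_mod]
    have hstep : Step strict w.length
        (⟨wrG h rel p0 fin (ix h t) b, t + 1, τ, S⟩ : Cfg (detG h rel p0 fin))
        ⟨Sum.elim (nxG h rel p0 fin (ix h (t + 1))) (wrG h rel p0 fin (ix h (t + 1)))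
          (nextP h rel p0 (ix h (t + 1))).entry, t, τ', insert (t + 1) S⟩ := by
      refine ⟨by show t + 1 ≤ w.length + 1; omega, _, .mark w[t] b, false, ?_,
        fun _ h => absurd h hnot, rfl, fun h => absurd h hnot, ?_, rfl, by simp, by simp⟩
      · show trG h rel p0 fin (wrG h rel p0 fin (ix h t) b) (τ (t + 1)) = some _
        rw [hcell]
        simp only [trG, wrG]
        rw [hk']
        rfl
      · intro _
        show τ' = Function.update τ (t + 1) ((τ (t + 1)).rewrite (.mark w[t] b))
        rw [hcell]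
        rfl
    have hy : t + 1 = ((t + 1) / 2 ^ h) * 2 ^ h + (ix h (t + 1)).val := by
      show t + 1 = ((t + 1) / 2 ^ h) * 2 ^ h + (t + 1) % 2 ^ h
      rw [Nat.mul_comm, Nat.div_add_mod]
    obtain ⟨b', hrun, hb'⟩ := decides_main (hi := t + 1) hh hA' hy le_rfl
    have hrun' : Run τ' (t + 1) (nextP h rel p0 (ix h (t + 1))) t b' (t + 1 + 1) :=
      run_mvs_right (n := 1) (by omega) hrun
    obtain ⟨N1, hN1, hpath⟩ := runN (strict := strict) (M := detG h rel p0 fin) hrun'
      (NL_nextP _) _ _ (implG_next (fin := fin) (ix h (t + 1)))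
    obtain ⟨S', hS', hlift⟩ := liftN (n := w.length) (by omega) hA'.1 hpath _ hS1
    refine ⟨τ', S', b', N + 1 + N1, ?_, hA', ?_, hS', hb',
      (Steps.tail _ _ _ _ hreach hstep).trans hlift⟩
    · have h1 := hC (ix h (t + 1))
      have hN1' : N1 ≤ (nextP h rel p0 (ix h (t + 1)) : Cmd (Sym (WS A))).cnt := hN1
      have h2 : (t + 1) * C = t * C + C := by ring
      omega
    · intro i hi
      rw [hτ', Function.update_of_ne (by omega)]
      exact hτ i (by omega)

/-- The language and the running time of the deterministic machine. -/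
theorem detG_main (hh : 1 ≤ h) (C : ℕ) (hC : ∀ k, (nextP h rel p0 k).cnt + 1 ≤ C)
    (hC' : ∀ k, (fin k).cnt + 2 ≤ C) (hnl : ∀ k, NL (fin k)) (φ : List A → Prop)
    (hfin : ∀ (w : List A) (τ : ℕ → Sym (WS A)), Ann h rel p0 w τ w.length →
      Decides τ (w.length + 1) (fin (ix h w.length)) w.length (w.length + 1) (φ w))
    (w : List A) :
    (w ∈ (detG h rel p0 fin : LimAut A).language strict ↔ φ w) ∧
      ∀ (k : ℕ) (c : Cfg (detG h rel p0 fin : LimAut A)),
        Steps (Step strict w.length) k (init (detG h rel p0 fin) w) c →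
          k ≤ C * (w.length + 1) := by
  have hd := detG_det h rel p0 fin
  obtain ⟨τ, S, b, N, hN, hA, hτ, hS, hb, hreach⟩ := loopG (strict := strict) (rel := rel)
    (p0 := p0) (fin := fin) hh C hC w w.length le_rfl
  have hcell : τ (w.length + 1) = .rm := by
    rw [hτ (w.length + 1) (by omega)]
    simp only [initTape, List.getElem?_eq_none (le_refl w.length)]
    rfl
  have hnot : w.length + 1 ∉ S := by
    intro h
    have := (hS (w.length + 1) (by omega)).1 h
    omega
  have hS1 : ∀ i, 1 ≤ i → (i ∈ insert (w.length + 1) S ↔ i ≤ w.length + 1) := by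
    intro i hi
    rw [Set.mem_insert_iff, hS i hi]
    omega
  have hstep : Step strict w.length
      (⟨wrG h rel p0 fin (ix h w.length) b, w.length + 1, τ, S⟩ : Cfg (detG h rel p0 fin))
      ⟨Sum.elim (fiG h rel p0 fin (ix h w.length)) (enG h rel p0 fin)
        (fin (ix h w.length)).entry, w.length, τ, insert (w.length + 1) S⟩ := by
    refine ⟨le_rfl, _, .dum, false, ?_, fun _ h => absurd h hnot, rfl,
      fun h => absurd h hnot, ?_, rfl, by simp, by simp⟩
    · show trG h rel p0 fin (wrG h rel p0 fin (ix h w.length) b) (τ (w.length + 1)) = some _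
      rw [hcell]
      rfl
    · intro _
      show τ = Function.update τ (w.length + 1) ((τ (w.length + 1)).rewrite .dum)
      funext i
      by_cases hi : i = w.length + 1
      · subst hi
        rw [Function.update_self, hcell]
        rfl
      · rw [Function.update_of_ne hi]
  obtain ⟨b', hrun, hb'⟩ := hfin w τ hA
  obtain ⟨N1, hN1, hpath⟩ := runN (strict := strict) (M := detG h rel p0 fin) hrun
    (hnl _) _ _ (implG_fin (fin := fin) (ix h w.length))
  obtain ⟨S', hS', hlift⟩ := liftN (n := w.length) le_rfl hA.1 hpath _ hS1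
  have hall := (Steps.tail _ _ _ _ hreach hstep).trans hlift
  have hbound : N + 1 + N1 + 1 ≤ C * (w.length + 1) := by
    have h1 := hC' (ix h w.length)
    have hN1' : N1 ≤ (fin (ix h w.length) : Cmd (Sym (WS A))).cnt := hN1
    have h2 : C * (w.length + 1) = w.length * C + C := by ring
    omega
  have hu : ∀ a b c : Cfg (detG h rel p0 fin : LimAut A), Step strict w.length a b →
      Step strict w.length a c → b = c := fun _ _ _ h1 h2 => Step.unique hd h1 h2
  rw [← hb']
  cases b'
  · have hstuck : ∀ c', ¬ Step strict w.length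
        (⟨enG h rel p0 fin false, w.length + 1, τ, S'⟩ : Cfg (detG h rel p0 fin)) c' := by
      rintro c' ⟨_, q, b, d, hδ, _⟩
      have : trG h rel p0 fin (enG h rel p0 fin false) (τ (w.length + 1)) = some (q, b, d) := hδ
      simp [trG, enG] at this
    constructor
    · simp only [Bool.false_eq_true, iff_false]
      refine not_mem_of_stuck hd hall.toRTG hstuck ?_
      show w.length + 1 ≠ w.length + 2
      omega
    · intro k c hk
      have := Steps.le_of_stuck hu hall hstuck hk
      omega
  · have hin : w.length + 1 ∈ S' := (hS' _ (by omega)).2 le_rfl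
    have hlast : Step strict w.length
        (⟨enG h rel p0 fin true, w.length + 1, τ, S'⟩ : Cfg (detG h rel p0 fin))
        ⟨enG h rel p0 fin true, w.length + 2, τ, insert (w.length + 1) S'⟩ := by
      refine ⟨le_rfl, enG h rel p0 fin true, .dum, true, ?_, ?_, rfl, fun _ => rfl,
        fun h => absurd hin h, rfl, fun _ => rfl, fun h => absurd h (by simp)⟩
      · show trG h rel p0 fin (enG h rel p0 fin true) (τ (w.length + 1)) = some _
        rw [hcell]
        rfl
      · intro _ _
        show (τ (w.length + 1)).rewrite .dum = τ (w.length + 1)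
        rw [hcell]
        rfl
    have hall' := Steps.tail _ _ _ _ hall hlast
    have hstuck : ∀ c', ¬ Step strict w.length
        (⟨enG h rel p0 fin true, w.length + 2, τ, insert (w.length + 1) S'⟩ :
          Cfg (detG h rel p0 fin)) c' := by
      intro c' h
      have h1 : w.length + 2 ≤ w.length + 1 := h.1
      omega
    constructor
    · simp only [iff_true]
      exact ⟨_, hall'.toRTG, rfl, rfl⟩
    · intro k c hk
      have := Steps.le_of_stuck hu hall' hstuck hk
      omega

end gen

end Pool.Agent.Y527.LA
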