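import Mathlib
import Pool.Agent.Y527.LA.Gen
import Pool.Agent.H630R2.LA.Nerode

set_option autoImplicit false

/-!
Boolean combinations of the languages of several 1-limited automata.
-/

namespace Pool.Agent.Y527.LA

open Relation
open Pool.Agent.H630R2.LA
open Pool.Agent.H630R2.LA.Cmd

section bt

variable {S ι : Type} [DecidableEq ι]

/-- Evaluate a Boolean function of tests. -/
def bt (P : ι → Cmd S) (f : (ι → Bool) → Bool) : List ι → (ι → Bool) → Cmd S
  | [], v => .ret (f v)
  | i :: l, v => .ite (P i) (bt P f l (Function.update v i true))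
      (bt P f l (Function.update v i false))

open Classical in
theorem decides_bt {τ : ℕ → S} {hi x : ℕ} {P : ι → Cmd S} {f : (ι → Bool) → Bool} {φ : ι → Prop}
    (h : ∀ i, Decides τ hi (P i) x x (φ i)) (l : List ι) :
    ∀ v : ι → Bool, Decides τ hi (bt P f l v) x x
      (f (fun i => if i ∈ l then decide (φ i) else v i) = true) := by
  induction l with
  | nil =>
    intro v
    refine (decides_ret τ hi x (f v)).congr ?_
    simp
  | cons i l ih =>
    intro v
    obtain ⟨b, hb, hb'⟩ := h i
    have key : ∀ b : Bool, (b = true ↔ φ i) →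
        (fun j => if j ∈ l then decide (φ j) else Function.update v i b j) =
        (fun j => if j ∈ i :: l then decide (φ j) else v j) := by
      intro b hb
      funext j
      by_cases h1 : j ∈ l
      · rw [if_pos h1, if_pos (List.mem_cons_of_mem _ h1)]
      · rw [if_neg h1]
        by_cases h2 : j = i
        · subst h2
          rw [Function.update_self, if_pos List.mem_cons_self]
          rw [Bool.eq_iff_iff, hb, decide_eq_true_iff]
        · rw [Function.update_of_ne h2, if_neg]
          intro h3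
          rcases List.mem_cons.1 h3 with h4 | h4
          · exact h2 h4
          · exact h1 h4
    cases b
    · obtain ⟨b', h1, h2⟩ := ih (Function.update v i false)
      refine ⟨b', Run.iteF _ _ _ x x x b' hb h1, ?_⟩
      rw [h2, key false hb']
    · obtain ⟨b', h1, h2⟩ := ih (Function.update v i true)
      refine ⟨b', Run.iteT _ _ _ x x x b' hb h1, ?_⟩
      rw [h2, key true hb']

theorem cnt_bt {P : ι → Cmd S} {f : (ι → Bool) → Bool} {s : ℕ} (h : ∀ i, (P i).cnt ≤ s)
    (l : List ι) : ∀ v : ι → Bool, (bt P f l v).cnt + s ≤ 2 ^ l.length * s := by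
  induction l with
  | nil =>
    intro v
    simp [bt, cnt]
  | cons i l ih =>
    intro v
    have h1 := ih (Function.update v i true)
    have h2 := ih (Function.update v i false)
    have h3 := h i
    simp only [bt, cnt, List.length_cons]
    have e : 2 ^ (l.length + 1) * s = 2 ^ l.length * s + 2 ^ l.length * s := by ring
    rw [e]
    omega

theorem NL_bt {P : ι → Cmd S} {f : (ι → Bool) → Bool} (h : ∀ i, NL (P i)) (l : List ι) :
    ∀ v : ι → Bool, NL (bt P f l v) := by
  induction l with
  | nil => exact fun _ => trivial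
  | cons i l ih => exact fun v => ⟨h i, ih _, ih _⟩

end bt

section final

variable {A ι : Type} [DecidableEq ι] {h : ℕ} (rel : A → Fin (2 ^ h) → Fin (2 ^ h) → Bool)
  (p0 : Fin (2 ^ h)) (facc : ι → Fin (2 ^ h) → Bool) (f : (ι → Bool) → Bool) (l : List ι)

/-- The final program. -/
def finB (k : Fin (2 ^ h)) : Cmd (Sym (WS A)) :=
  mvs true 1 (bt (fun i => mvs false 1 (finP h rel p0 (facc i) k)) f l (fun _ => false))

variable {rel p0 facc f l}

theorem NL_finB (k : Fin (2 ^ h)) : NL (finB rel p0 facc f l k) :=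
  NL_mvs _ _ (NL_bt (fun _ => NL_mvs _ _ (NL_finP _)) l _)

open Classical in
theorem decides_finB (hh : 1 ≤ h) (hl : ∀ i, i ∈ l) {w : List A} {τ : ℕ → Sym (WS A)}
    (hA : Ann h rel p0 w τ w.length) :
    Decides τ (w.length + 1) (finB rel p0 facc f l (ix h w.length)) w.length (w.length + 1)
      (f (fun i => decide (∃ q, facc i q = true ∧ nr h rel p0 w w.length q)) = true) := by
  have hy : w.length = (w.length / 2 ^ h) * 2 ^ h + (ix h w.length).val := by
    show w.length = (w.length / 2 ^ h) * 2 ^ h + w.length % 2 ^ h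
    rw [Nat.mul_comm, Nat.div_add_mod]
  unfold finB
  apply decides_mvs_right (by omega)
  have key : ∀ i, Decides τ (w.length + 1) (mvs false 1 (finP h rel p0 (facc i) (ix h w.length)))
      (w.length + 1) (w.length + 1) (∃ q, facc i q = true ∧ nr h rel p0 w w.length q) := by
    intro i
    apply decides_mvs_left (by omega)
    exact decides_fin (facc := facc i) hh hA hy (by omega)
  refine (decides_bt key l _).congr (Iff.of_eq ?_)
  congr 2
  funext i
  rw [if_pos (hl i)]
  exact decide_eq_decide.2 Iff.rfl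

theorem cnt_finB (k : Fin (2 ^ h)) : (finB rel p0 facc f l k).cnt ≤
    1 + 2 ^ l.length * (1 + 18 * (2 ^ h * 2 ^ h) * (4 * 2 ^ h) ^ (h + 1)) := by
  unfold finB
  rw [cnt_mvs]
  have h1 : ∀ i, (mvs false 1 (finP h rel p0 (facc i) k)).cnt ≤
      1 + 18 * (2 ^ h * 2 ^ h) * (4 * 2 ^ h) ^ (h + 1) := by
    intro i
    rw [cnt_mvs]
    have := cnt_finP (rel := rel) (p0 := p0) (facc := facc i) k
    omega
  have h2 := cnt_bt (f := f) h1 l (fun _ => false)
  omega

theorem arith4 (B Z P s1 s2 : ℕ) (hB : 1 ≤ B) (hZ : B ≤ Z) (hP : 1 ≤ P)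
    (h1 : s1 ≤ B * (14 * B * Z)) (h2 : s2 ≤ B * (1 + P * (1 + 18 * (B * B) * Z))) :
    B * 2 + (s1 + (s2 + 2)) ≤ 64 * (B * (B * (B * Z))) * P := by
  have h3 : B ≤ B * Z := Nat.le_mul_of_pos_right B (by omega)
  have h4 : B * Z ≤ B * (B * Z) := Nat.le_mul_of_pos_left _ (by omega)
  have h5 : B * (B * Z) ≤ B * (B * (B * Z)) := Nat.le_mul_of_pos_left _ (by omega)
  have h6 : B * (14 * B * Z) = 14 * (B * (B * Z)) := by ring
  have h7 : B * (1 + P * (1 + 18 * (B * B) * Z)) =
      B + B * P + 18 * (B * (B * (B * Z)) * P) := by ring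
  have h8 : B * (B * (B * Z)) ≤ B * (B * (B * Z)) * P := Nat.le_mul_of_pos_right _ (by omega)
  have h9 : B * P ≤ B * (B * (B * Z)) * P := Nat.mul_le_mul_right _ (by omega)
  have h10 : 64 * (B * (B * (B * Z))) * P = 64 * (B * (B * (B * Z)) * P) := by ring
  rw [h10]
  rw [h6] at h1
  rw [h7] at h2
  omega

theorem sum_QG : Nat.card (QG h rel p0 (finB rel p0 facc f l)) = 2 ^ h * 2 +
      ((∑ k : Fin (2 ^ h), (nextP h rel p0 k).cnt) +
        ((∑ k : Fin (2 ^ h), (finB rel p0 facc f l k).cnt) + 2)) := by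
  unfold QG
  rw [Nat.card_sum, Nat.card_sum, Nat.card_sum, Nat.card_prod, Nat.card_sigma, Nat.card_sigma]
  simp only [card_St, Nat.card_eq_fintype_card, Fintype.card_fin, Fintype.card_bool]

theorem card_QG : Nat.card (QG h rel p0 (finB rel p0 facc f l)) ≤
    2 ^ (h ^ 2 + 6 * h + 8 + l.length) := by
  have hB : 1 ≤ 2 ^ h := Nat.one_le_two_pow
  have s1 : ∑ k : Fin (2 ^ h), (nextP h rel p0 k).cnt ≤
      2 ^ h * (14 * 2 ^ h * (4 * 2 ^ h) ^ (h + 1)) := by
    have : ∑ k : Fin (2 ^ h), (nextP h rel p0 k).cnt ≤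
        ∑ _k : Fin (2 ^ h), (14 * 2 ^ h * (4 * 2 ^ h) ^ (h + 1)) := by
      apply Finset.sum_le_sum
      intro k _
      have h1 := cnt_mainP (rel := rel) (p0 := p0) k
      simp only [nextP, cnt_mvs]
      have h2 : 1 ≤ 2 ^ h * (4 * 2 ^ h) ^ (h + 1) := Nat.mul_pos hB (lt_of_lt_of_le hB (le_Z h))
      have h3 : 13 * 2 ^ h * (4 * 2 ^ h) ^ (h + 1) = 13 * (2 ^ h * (4 * 2 ^ h) ^ (h + 1)) := by ring
      have h4 : 14 * 2 ^ h * (4 * 2 ^ h) ^ (h + 1) = 14 * (2 ^ h * (4 * 2 ^ h) ^ (h + 1)) := by ring
      omega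
    refine this.trans ?_
    simp
  have s2 : ∑ k : Fin (2 ^ h), (finB rel p0 facc f l k).cnt ≤
      2 ^ h * (1 + 2 ^ l.length * (1 + 18 * (2 ^ h * 2 ^ h) * (4 * 2 ^ h) ^ (h + 1))) := by
    have : ∑ k : Fin (2 ^ h), (finB rel p0 facc f l k).cnt ≤
        ∑ _k : Fin (2 ^ h),
          (1 + 2 ^ l.length * (1 + 18 * (2 ^ h * 2 ^ h) * (4 * 2 ^ h) ^ (h + 1))) := by
      apply Finset.sum_le_sum
      intro k _
      exact cnt_finB k
    refine this.trans ?_
    simp
  have hfin : (4 * 2 ^ h) ^ (h + 1) = 2 ^ (h ^ 2 + 3 * h + 2) := by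
    have : 4 * 2 ^ h = 2 ^ (h + 2) := by ring
    rw [this, ← pow_mul]
    congr 1
    ring
  have hgoal : 2 ^ (h ^ 2 + 6 * h + 8 + l.length) =
      64 * (2 ^ h * (2 ^ h * (2 ^ h * (4 * 2 ^ h) ^ (h + 1)))) * 2 ^ l.length := by
    rw [hfin]
    have : h ^ 2 + 6 * h + 8 + l.length =
        6 + (h + (h + (h + (h ^ 2 + 3 * h + 2)))) + l.length := by ring
    rw [this, pow_add 2 _ l.length, pow_add 2 6, pow_add 2 h, pow_add 2 h, pow_add 2 h]
    norm_num
  rw [sum_QG, hgoal]
  exact arith4 _ _ _ _ _ hB (le_Z h) Nat.one_le_two_pow s1 s2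

theorem size_detG [Finite A] : (detG h rel p0 (finB rel p0 facc f l) : LimAut A).size ≤
    2 ^ (h ^ 2 + 6 * h + 13 + l.length) * (Nat.card A + 1) := by
  have h1 : (detG h rel p0 (finB rel p0 facc f l) : LimAut A).numTrans ≤
      Nat.card (QG h rel p0 (finB rel p0 facc f l)) * (Nat.card (WS A) + 2) :=
    numTrans_le _ (detG_det h rel p0 _)
  have h2 := card_QG (rel := rel) (p0 := p0) (facc := facc) (f := f) (l := l)
  have h3 := card_WS A
  have hpos : 1 ≤ Nat.card (QG h rel p0 (finB rel p0 facc f l)) := by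
    rw [sum_QG]
    omega
  have hsize : (detG h rel p0 (finB rel p0 facc f l) : LimAut A).size =
      Nat.card (QG h rel p0 (finB rel p0 facc f l)) + Nat.card A +
      (Nat.card (WS A) + 2) + 5 * (detG h rel p0 (finB rel p0 facc f l) : LimAut A).numTrans + 1 +
      ({enG h rel p0 (finB rel p0 facc f l) true} :
        Set (QG h rel p0 (finB rel p0 facc f l))).ncard := rfl
  rw [hsize, Set.ncard_singleton, h3]
  rw [h3] at h1
  have h4 : 2 ^ (h ^ 2 + 6 * h + 13 + l.length) = 32 * 2 ^ (h ^ 2 + 6 * h + 8 + l.length) := by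
    have : h ^ 2 + 6 * h + 13 + l.length = 5 + (h ^ 2 + 6 * h + 8 + l.length) := by ring
    rw [this, pow_add 2 5]
    norm_num
  rw [h4]
  generalize (detG h rel p0 (finB rel p0 facc f l) : LimAut A).numTrans = T at *
  generalize Nat.card (QG h rel p0 (finB rel p0 facc f l)) = q at *
  generalize 2 ^ (h ^ 2 + 6 * h + 8 + l.length) = Z at *
  generalize Nat.card A = a at *
  have h5 : q * (3 * a + 1 + 2) = 3 * (q * (a + 1)) := by ring
  rw [h5] at h1
  have h6 : a + 1 ≤ q * (a + 1) := Nat.le_mul_of_pos_left _ hpos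
  have h7 : q ≤ q * (a + 1) := Nat.le_mul_of_pos_right _ (by omega)
  have h8 : q * (a + 1) ≤ Z * (a + 1) := Nat.mul_le_mul_right _ h2
  have h9 : 32 * Z * (a + 1) = 32 * (Z * (a + 1)) := by ring
  rw [h9]
  omega

end final

section comb

variable {A : Type}

/-- The pairs (table of the visited part of the tape, state) that occur when a new cell is
entered. -/
def tabs (strict : Prop) (M : LimAut A) : Set (Set (M.Q × M.Q) × M.Q) :=
  {x | ∃ u : List A, runs strict M u (x0 strict M) x}

open Classical in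
/-- **Boolean combinations.** -/
theorem exists_comb [Finite A] (strict : Prop) {n : ℕ} (M : Fin n → LimAut A)
    (F : (Fin n → Prop) → Prop) (h : ℕ) (hh : 1 ≤ h)
    (hr : ∑ i, (tabs strict (M i)).ncard + 1 ≤ 2 ^ h) :
    ∃ M' : LimAut A, M'.Deterministic ∧
      (∀ (strict' : Prop) (w : List A), w ∈ M'.language strict' ↔
        F (fun i => w ∈ (M i).language strict)) ∧
      Nat.card M'.Q ≤ 2 ^ (h ^ 2 + 6 * h + 8 + n) ∧ Nat.card M'.W = 3 * Nat.card A + 1 ∧
      M'.size ≤ 2 ^ (h ^ 2 + 6 * h + 13 + n) * (Nat.card A + 1) ∧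
      ∀ (strict' : Prop) (w : List A) (k : ℕ) (c : Cfg M'),
        Steps (Step strict' w.length) k (init M' w) c → k ≤ Nat.card M'.Q * (w.length + 1) := by
  have hfin : ∀ i, Finite (Set ((M i).Q × (M i).Q) × (M i).Q) := by
    intro i
    have := (M i).finQ
    infer_instance
  have hcard : Nat.card (Option (Σ i : Fin n, tabs strict (M i))) ≤ 2 ^ h := by
    rw [Finite.card_option, Nat.card_sigma]
    exact hr
  obtain ⟨e⟩ : Nonempty (Option (Σ i : Fin n, tabs strict (M i)) ↪ Fin (2 ^ h)) := by
    have e1 := Finite.equivFin (Option (Σ i : Fin n, tabs strict (M i)))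
    exact ⟨e1.toEmbedding.trans (Fin.castLEEmb hcard)⟩
  let rel : A → Fin (2 ^ h) → Fin (2 ^ h) → Bool := fun a p q =>
    decide (∃ (i : Fin n) (y : tabs strict (M i)), e (some ⟨i, y⟩) = q ∧
      ((p = e none ∧ nstep strict (M i) (.sym ((M i).inp a)) (x0 strict (M i)) y.1) ∨
        ∃ x : tabs strict (M i), e (some ⟨i, x⟩) = p ∧
          nstep strict (M i) (.sym ((M i).inp a)) x.1 y.1))
  let p0 : Fin (2 ^ h) := e none
  let facc : Fin n → Fin (2 ^ h) → Bool := fun i p =>
    decide ((p = e none ∧ finX strict (M i) (x0 strict (M i))) ∨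
      ∃ x : tabs strict (M i), e (some ⟨i, x⟩) = p ∧ finX strict (M i) x.1)
  let f : (Fin n → Bool) → Bool := fun v => decide (F (fun i => v i = true))
  have hlen : (List.finRange n).length = n := List.length_finRange
  -- the states of the combined automaton
  have key : ∀ (w : List A) (t : ℕ), t ≤ w.length → ∀ p : Fin (2 ^ h), nr h rel p0 w t p ↔
      ((t = 0 ∧ p = e none) ∨ (0 < t ∧ ∃ (i : Fin n) (x : tabs strict (M i)),
        e (some ⟨i, x⟩) = p ∧ runs strict (M i) (w.take t) (x0 strict (M i)) x.1)) := by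
    intro w t
    induction t with
    | zero =>
      intro _ p
      rw [nr_zero]
      simp [p0]
    | succ t ih =>
      intro ht q
      have hwt : w[t]? = some w[t] := List.getElem?_eq_getElem (by omega)
      have htake : w.take (t + 1) = w.take t ++ [w[t]] := by
        rw [List.take_succ_eq_append_getElem (by omega)]
      constructor
      · rintro ⟨p, hp, a, ha, hrel⟩
        rw [hwt] at ha
        cases ha
        right
        refine ⟨by omega, ?_⟩
        obtain ⟨i, y, hy, hs⟩ := of_decide_eq_true hrel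
        refine ⟨i, y, hy, ?_⟩
        rw [htake, runs_append]
        rcases (ih (by omega) p).1 hp with ⟨h1, h2⟩ | ⟨h1, i', x', h2, h3⟩
        · rcases hs with ⟨_, h4⟩ | ⟨x, h4, _⟩
          · subst h1
            refine ⟨x0 strict (M i), ?_, y.1, h4, rfl⟩
            rw [List.take_zero]
            rfl
          · rw [h2] at h4
            exact absurd (e.injective h4) (by simp)
        · rcases hs with ⟨h4, _⟩ | ⟨x, h4, h5⟩
          · rw [h4] at h2
            exact absurd (e.injective h2) (by simp)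
          · rw [← h2] at h4
            have h6 := Option.some.inj (e.injective h4)
            cases h6
            exact ⟨x.1, h3, y.1, h5, rfl⟩
      · rintro (⟨h1, _⟩ | ⟨_, i, y, hy, hrun⟩)
        · omega
        · rw [htake, runs_append] at hrun
          obtain ⟨z, hz, y', hs, hy'⟩ := hrun
          have hy'' : y' = y.1 := hy'
          subst hy''
          rcases Nat.eq_zero_or_pos t with h0 | h0
          · subst h0
            rw [List.take_zero] at hz
            have hz' : x0 strict (M i) = z := hz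
            subst hz'
            refine ⟨e none, (ih (by omega) _).2 (Or.inl ⟨rfl, rfl⟩), w[0], hwt, ?_⟩
            exact decide_eq_true ⟨i, y, hy, Or.inl ⟨rfl, hs⟩⟩
          · let x : tabs strict (M i) := ⟨z, w.take t, hz⟩
            refine ⟨e (some ⟨i, x⟩), (ih (by omega) _).2 (Or.inr ⟨h0, i, x, rfl, hz⟩), w[t], hwt,
              ?_⟩
            exact decide_eq_true ⟨i, y, hy, Or.inr ⟨x, rfl, hs⟩⟩
  have hacc : ∀ (w : List A) (i : Fin n), (∃ q, facc i q = true ∧ nr h rel p0 w w.length q) ↔
      w ∈ (M i).language strict := by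
    intro w i
    rw [mem_language_runs]
    constructor
    · rintro ⟨q, hq, hn⟩
      rw [key w w.length le_rfl, List.take_length] at hn
      rcases hn with ⟨h1, h2⟩ | ⟨h1, i', x', h2, h3⟩
      · rcases of_decide_eq_true hq with ⟨_, h4⟩ | ⟨x, h4, _⟩
        · refine ⟨x0 strict (M i), ?_, h4⟩
          rw [List.length_eq_zero_iff.1 h1]
          rfl
        · rw [h2] at h4
          exact absurd (e.injective h4) (by simp)
      · rcases of_decide_eq_true hq with ⟨h4, _⟩ | ⟨x, h4, h5⟩
        · rw [h4] at h2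
          exact absurd (e.injective h2) (by simp)
        · rw [← h2] at h4
          have h6 := Option.some.inj (e.injective h4)
          cases h6
          exact ⟨x.1, h3, h5⟩
    · rintro ⟨y, h1, h2⟩
      rcases Nat.eq_zero_or_pos w.length with h0 | h0
      · have hw : w = [] := List.length_eq_zero_iff.1 h0
        subst hw
        have h1' : x0 strict (M i) = y := h1
        subst h1'
        refine ⟨e none, decide_eq_true (Or.inl ⟨rfl, h2⟩), ?_⟩
        exact (key [] 0 le_rfl _).2 (Or.inl ⟨rfl, rfl⟩)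
      · let x : tabs strict (M i) := ⟨y, w, h1⟩
        refine ⟨e (some ⟨i, x⟩), decide_eq_true (Or.inr ⟨x, rfl, h2⟩), ?_⟩
        refine (key w w.length le_rfl _).2 (Or.inr ⟨h0, i, x, rfl, ?_⟩)
        rw [List.take_length]
        exact h1
  have hC1 : ∀ k, (nextP h rel p0 k).cnt + 1 ≤
      Nat.card (QG h rel p0 (finB rel p0 facc f (List.finRange n))) := by
    intro k
    rw [sum_QG]
    have h1 : (nextP h rel p0 k).cnt ≤ ∑ k : Fin (2 ^ h), (nextP h rel p0 k).cnt :=
      Finset.single_le_sum (f := fun k => (nextP h rel p0 k).cnt) (fun _ _ => Nat.zero_le _)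
        (Finset.mem_univ k)
    omega
  have hC2 : ∀ k, (finB rel p0 facc f (List.finRange n) k).cnt + 2 ≤
      Nat.card (QG h rel p0 (finB rel p0 facc f (List.finRange n))) := by
    intro k
    rw [sum_QG]
    have h1 : (finB rel p0 facc f (List.finRange n) k).cnt ≤
        ∑ k : Fin (2 ^ h), (finB rel p0 facc f (List.finRange n) k).cnt :=
      Finset.single_le_sum (f := fun k => (finB rel p0 facc f (List.finRange n) k).cnt)
        (fun _ _ => Nat.zero_le _) (Finset.mem_univ k)
    omega
  have hmain : ∀ (strict' : Prop) (w : List A), _ := fun strict' w =>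
    detG_main (strict := strict') (fin := finB rel p0 facc f (List.finRange n)) hh _ hC1 hC2
      (fun k => NL_finB k) _ (fun w τ hA => decides_finB hh (fun i => List.mem_finRange i) hA) w
  refine ⟨detG h rel p0 (finB rel p0 facc f (List.finRange n)), detG_det _ _ _ _, ?_, ?_, ?_, ?_,
    ?_⟩
  · intro strict' w
    rw [(hmain strict' w).1]
    have e1 : (fun i => decide (∃ q, facc i q = true ∧ nr h rel p0 w w.length q)) =
        (fun i => decide (w ∈ (M i).language strict)) := by
      funext i
      rw [decide_eq_decide]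
      exact hacc w i
    rw [e1]
    show decide (F (fun i => decide (w ∈ (M i).language strict) = true)) = true ↔ _
    rw [decide_eq_true_iff]
    have e2 : (fun i => decide (w ∈ (M i).language strict) = true) =
        (fun i => w ∈ (M i).language strict) := by
      funext i
      rw [decide_eq_true_iff]
    rw [e2]
  · have h1 := card_QG (rel := rel) (p0 := p0) (facc := facc) (f := f) (l := List.finRange n)
    rw [hlen] at h1
    exact h1
  · exact card_WS A
  · have h1 := size_detG (rel := rel) (p0 := p0) (facc := facc) (f := f) (l := List.finRange n)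
    rw [hlen] at h1
    exact h1
  · intro strict' w k c hk
    exact (hmain strict' w).2 k c hk

end comb

end Pool.Agent.Y527.LA
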