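import Mathlib
import Pool.Agent.TH588.KG.Sets
import Pool.Agent.TH705.LB.Lower

set_option autoImplicit false

/-!
1-limited automata without choice what to write: the set automaton is deterministic, and a family
of pairwise inequivalent words forces many states.
-/

namespace Pool.Agent.Y527.LA

open Relation
open Pool.Agent.H630R2.LA
open Pool.Agent.TH588.KG (XS dX jX sreach nreach_iff)

variable {A : Type}

/-- `M` has no choice what to write: if two computations on the same input are going to visit the
same cell, which contains an input letter, for the first time, with the same tape, then all their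
moves write the same symbol. -/
def NoChoice (strict : Prop) (M : LimAut A) : Prop :=
  ∀ (w : List A) (c c' : Cfg M),
    ReflTransGen (Step strict w.length) (init M w) c →
    ReflTransGen (Step strict w.length) (init M w) c' →
    1 ≤ c.pos → c.pos ≤ w.length → c'.pos = c.pos → c.pos ∉ c.seen → c'.pos ∉ c'.seen →
    c'.tape = c.tape →
    ∀ q b d q' b' d', (q, b, d) ∈ M.δ c.state (c.tape c.pos) →
      (q', b', d') ∈ M.δ c'.state (c.tape c.pos) → b = b'

section nerode

variable {strict : Prop} {M : LimAut A}

/-- One class. -/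
def rk0 (M : LimAut A) : M.Q → Fin (0 + 1) := fun _ => 0

theorem NoChoice.toKG (h : NoChoice strict M) :
    Pool.Agent.TH588.KG.NoChoice strict M (rk0 M) := by
  intro w c c' h1 h2 h3 h4 h5 h6 h7 h8 _ q b d q' b' d' h10 h11 _ _
  exact h w c c' h1 h2 h3 h4 h5 h6 h7 h8 q b d q' b' d' h10 h11

/-- The state of the set automaton after `u`. -/
noncomputable def sst (strict : Prop) (M : LimAut A) (u : List A) : XS M 0 :=
  u.foldl (fun x a => dX strict M (rk0 M) a x) (rk0 M M.q0, ext strict M ∅ .lm, {M.q0})

theorem sreach_iff (w : List A) (t : ℕ) (ht : t ≤ w.length) (x : XS M 0) :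
    sreach strict M (rk0 M) w t x ↔ x = sst strict M (w.take t) := by
  induction t generalizing x with
  | zero => rfl
  | succ t ih =>
    have hwt : w[t]? = some w[t] := List.getElem?_eq_getElem (by omega)
    have htake : w.take (t + 1) = w.take t ++ [w[t]] := by
      rw [List.take_succ_eq_append_getElem (by omega)]
    have hs : sst strict M (w.take (t + 1)) =
        dX strict M (rk0 M) w[t] (sst strict M (w.take t)) := by
      rw [htake]
      unfold sst
      rw [List.foldl_append]
      rfl
    rw [hs]
    constructor
    · rintro ⟨y, hy, a, ha, h⟩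
      rw [ih (by omega)] at hy
      subst hy
      rw [hwt] at ha
      cases ha
      rcases h with h | ⟨h1, _⟩
      · exact h
      · exfalso
        have e1 := (sst strict M (w.take t)).1.isLt
        have e2 := x.1.isLt
        have e3 := Fin.lt_def.1 h1
        omega
    · rintro rfl
      exact ⟨_, (ih (by omega) _).2 rfl, w[t], hwt, Or.inl rfl⟩

/-- Acceptance in terms of the set automaton. -/
def accS (strict : Prop) (M : LimAut A) (x : XS M 0) : Prop :=
  ∃ q ∈ x.2.2, ∃ z, nstep strict M .rm (x.2.1, q) z ∧ z.2 ∈ M.F

theorem mem_iff (h : NoChoice strict M) (w : List A) :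
    w ∈ M.language strict ↔ accS strict M (sst strict M w) := by
  have hm : ∀ p σ q b d, (q, b, d) ∈ M.δ p σ → rk0 M p ≤ rk0 M q :=
    fun _ _ _ _ _ _ => le_rfl
  have hlast : initTape M w (w.length + 1) = .rm := by
    simp only [initTape, List.getElem?_eq_none (le_refl w.length)]
  have e : sst strict M (w.take w.length) = sst strict M w := by rw [List.take_length]
  rw [mem_language]
  constructor
  · rintro ⟨R, f, ⟨⟨T, q⟩, h1, h2⟩, hf⟩
    rw [hlast] at h2
    rw [nreach_iff hm h.toKG w.length le_rfl] at h1
    obtain ⟨x, hx, rfl, hq⟩ := h1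
    rw [sreach_iff w w.length le_rfl, e] at hx
    subst hx
    exact ⟨q, hq, _, h2, hf⟩
  · rintro ⟨q, hq, z, h2, hf⟩
    refine ⟨z.1, z.2, ⟨((sst strict M w).2.1, q), ?_, ?_⟩, hf⟩
    · rw [nreach_iff hm h.toKG w.length le_rfl]
      exact ⟨_, (sreach_iff w w.length le_rfl _).2 e.symm, rfl, hq⟩
    · rw [hlast]
      exact h2

/-- Words with the same state of the set automaton are equivalent. -/
theorem nerodeS (h : NoChoice strict M) {u v : List A}
    (huv : sst strict M u = sst strict M v) (z : List A) :
    u ++ z ∈ M.language strict ↔ v ++ z ∈ M.language strict := by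
  rw [mem_iff h, mem_iff h]
  have e : sst strict M (u ++ z) = sst strict M (v ++ z) := by
    have e1 : ∀ u : List A, sst strict M (u ++ z) =
        z.foldl (fun x a => dX strict M (rk0 M) a x) (sst strict M u) := by
      intro u
      unfold sst
      rw [List.foldl_append]
    rw [e1, e1, huv]
  rw [e]

theorem card_XS0 (M : LimAut A) : Nat.card (XS M 0) =
    2 ^ (Nat.card M.Q * Nat.card M.Q + Nat.card M.Q) := by
  have := M.finQ
  have hset : ∀ (T : Type) [Finite T], Nat.card (Set T) = 2 ^ Nat.card T := by
    intro T _
    have : Nat.card (Set T) = Nat.card (T → Prop) := rfl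
    rw [this, Nat.card_fun]
    congr 1
    simp
  rw [Nat.card_prod, Nat.card_prod, hset, hset, Nat.card_prod, pow_add]
  simp

/-- A family of pairwise inequivalent words indexed by the subsets of `T` forces about
`sqrt |T|` states, also for nondeterministic automata without choice what to write. -/
theorem card_le_of_distinguishedS (h : NoChoice strict M) {T : Type} [Finite T]
    (u : Set T → List A)
    (hu : ∀ G G' : Set T, G ≠ G' → ∃ z, ¬ (u G ++ z ∈ M.language strict ↔
      u G' ++ z ∈ M.language strict)) :
    Nat.card T ≤ Nat.card M.Q * Nat.card M.Q + Nat.card M.Q := by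
  have := M.finQ
  have hinj : Function.Injective (fun G : Set T => sst strict M (u G)) := by
    intro G G' hG
    by_contra hne
    obtain ⟨z, hz⟩ := hu G G' hne
    exact hz (nerodeS h hG z)
  have h1 := Nat.card_le_card_of_injective _ hinj
  rw [card_XS0] at h1
  have h2 : Nat.card (Set T) = 2 ^ Nat.card T := by
    have : Nat.card (Set T) = Nat.card (T → Prop) := rfl
    rw [this, Nat.card_fun]
    congr 1
    simp
  rw [h2] at h1
  exact (Nat.pow_le_pow_iff_right (by norm_num)).1 h1

end nerode

section witness

open Pool.Agent.TH705.LB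

/-- Every automaton without choice what to write that is equivalent to the witness has many
states. -/
theorem lowerNC (m : ℕ) (strict : Prop) (M : LimAut Ltr) (h : NoChoice strict M)
    (hM : M.language strict = (witM m).language strict) :
    2 ^ (m ^ 2) ≤ Nat.card M.Q * Nat.card M.Q + Nat.card M.Q := by
  rw [← card_mat m]
  refine card_le_of_distinguishedS (strict := strict) h (T := Mat m)
    (fun G => blocksW (listOf G)) ?_
  intro G G' hne
  obtain ⟨X, hX⟩ : ∃ X, ¬ (X ∈ G ↔ X ∈ G') := by
    by_contra h
    push Not at h
    exact hne (Set.ext h)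
  refine ⟨Ltr.q :: queriesW (test X), ?_⟩
  rw [hM, mem_set, mem_set]
  exact hX

end witness

section det

variable {strict : Prop} {M : LimAut A}

open Classical in
/-- The number of functional tables. -/
theorem card_FT (M : LimAut A) :
    Nat.card {R : Set (M.Q × M.Q) // FT R} ≤ (Nat.card M.Q + 1) ^ Nat.card M.Q := by
  have := M.finQ
  have hinj : Function.Injective (fun R : {R : Set (M.Q × M.Q) // FT R} =>
      fun p : M.Q => if h : ∃ q, (p, q) ∈ R.1 then some h.choose else none) := by
    rintro ⟨R, hR⟩ ⟨R', hR'⟩ h
    apply Subtype.ext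
    have key : ∀ (R R' : Set (M.Q × M.Q)) (hR : FT R) (hR' : FT R'),
        (∀ p, (if h : ∃ q, (p, q) ∈ R then some h.choose else none) =
          (if h : ∃ q, (p, q) ∈ R' then some h.choose else none)) → R ⊆ R' := by
      intro R R' hR hR' hh
      rintro ⟨p, q⟩ hpq
      have h1 : ∃ q, (p, q) ∈ R := ⟨q, hpq⟩
      have h2 := hh p
      rw [dif_pos h1] at h2
      by_cases h3 : ∃ q, (p, q) ∈ R'
      · rw [dif_pos h3] at h2
        have e1 : h1.choose = q := hR p _ _ h1.choose_spec hpq
        have e2 := h3.choose_spec
        rw [Option.some.injEq] at h2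
        rw [← h2, e1] at e2
        exact e2
      · rw [dif_neg h3] at h2
        exact absurd h2 (by simp)
    have hh : ∀ p, (if h : ∃ q, (p, q) ∈ R then some h.choose else none) =
          (if h : ∃ q, (p, q) ∈ R' then some h.choose else none) := fun p => congrFun h p
    exact Set.Subset.antisymm (key R R' hR hR' hh) (key R' R hR' hR (fun p => (hh p).symm))
  have h1 := Nat.card_le_card_of_injective _ hinj
  rw [Nat.card_fun, Finite.card_option] at h1
  exact h1

/-- The sharper bound for deterministic automata. -/
theorem card_le_of_distinguishedD (hd : M.Deterministic) {T : Type} [Finite T]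
    (u : Set T → List A)
    (hu : ∀ G G' : Set T, G ≠ G' → ∃ z, ¬ (u G ++ z ∈ M.language strict ↔
      u G' ++ z ∈ M.language strict)) :
    2 ^ Nat.card T ≤ (Nat.card M.Q + 1) ^ (Nat.card M.Q + 1) := by
  have := M.finQ
  have hFT : ∀ (v : List A) (x y : Set (M.Q × M.Q) × M.Q), FT x.1 → runs strict M v x y →
      FT y.1 := by
    intro v
    induction v with
    | nil => intro x y hx h; rw [← (show x = y from h)]; exact hx
    | cons a v ih =>
      rintro x y hx ⟨z, h1, h2⟩
      exact ih z y (nstep_unique hd hx h1 h1).2 h2
  have hst : ∀ (v : List A) (y : Set (M.Q × M.Q) × M.Q), stateOf strict M v = some y → FT y.1 := by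
    intro v y h
    rw [stateOf_eq hd] at h
    exact hFT v _ y (x0_FT hd) h
  have hex : ∀ G : Set T, ∃ o : Option ({R : Set (M.Q × M.Q) // FT R} × M.Q),
      o.map (fun y => ((y.1.1, y.2) : Set (M.Q × M.Q) × M.Q)) = stateOf strict M (u G) := by
    intro G
    rcases hs : stateOf strict M (u G) with _ | y
    · exact ⟨none, rfl⟩
    · exact ⟨some (⟨y.1, hst _ _ hs⟩, y.2), rfl⟩
  choose g hg using hex
  have hinj : Function.Injective g := by
    intro G G' h
    by_contra hne
    obtain ⟨z, hz⟩ := hu G G' hne
    refine hz (nerode hd ?_ z)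
    rw [← hg G, ← hg G', h]
  have h1 := Nat.card_le_card_of_injective _ hinj
  rw [Finite.card_option, Nat.card_prod] at h1
  have h2 : Nat.card (Set T) = 2 ^ Nat.card T := by
    have : Nat.card (Set T) = Nat.card (T → Prop) := rfl
    rw [this, Nat.card_fun]
    congr 1
    simp
  rw [h2] at h1
  have h3 := card_FT M
  calc 2 ^ Nat.card T ≤ Nat.card {R : Set (M.Q × M.Q) // FT R} * Nat.card M.Q + 1 := h1
    _ ≤ (Nat.card M.Q + 1) ^ Nat.card M.Q * Nat.card M.Q + (Nat.card M.Q + 1) ^ Nat.card M.Q := by
        have h4 : 1 ≤ (Nat.card M.Q + 1) ^ Nat.card M.Q := Nat.one_le_pow _ _ (by omega)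
        have h5 := Nat.mul_le_mul_right (Nat.card M.Q) h3
        omega
    _ = (Nat.card M.Q + 1) ^ (Nat.card M.Q + 1) := by ring

open Pool.Agent.TH705.LB in
/-- Every deterministic automaton equivalent to the witness has about `2 ^ (m ^ 2)` states. -/
theorem lowerD (m : ℕ) (strict : Prop) (M : LimAut Ltr) (hd : M.Deterministic)
    (hM : M.language strict = (witM m).language strict) :
    2 ^ 2 ^ (m ^ 2) ≤ (Nat.card M.Q + 1) ^ (Nat.card M.Q + 1) := by
  rw [← card_mat m]
  refine card_le_of_distinguishedD (strict := strict) hd (T := Mat m)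
    (fun G => blocksW (listOf G)) ?_
  intro G G' hne
  obtain ⟨X, hX⟩ : ∃ X, ¬ (X ∈ G ↔ X ∈ G') := by
    by_contra h
    push Not at h
    exact hne (Set.ext h)
  refine ⟨Ltr.q :: queriesW (test X), ?_⟩
  rw [hM, mem_set, mem_set]
  exact hX

end det

end Pool.Agent.Y527.LA
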