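import Mathlib
import Pool.Agent.Y527.LA.Comb
import Pool.Agent.Y527.LA.NoCh

set_option autoImplicit false

/-!
Numbers of pairs (table, state).
-/

namespace Pool.Agent.Y527.LA

open Relation
open Pool.Agent.H630R2.LA

variable {A : Type}

/-- The number of pairs (table of the visited part of the tape, state) that occur when `M` enters a
new cell. -/
noncomputable def numTabs (strict : Prop) (M : LimAut A) : ℕ := (tabs strict M).ncard

theorem numTabs_le (strict : Prop) (M : LimAut A) :
    numTabs strict M ≤ 2 ^ (Nat.card M.Q * Nat.card M.Q) * Nat.card M.Q := by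
  have := M.finQ
  rw [← card_table, ← Set.ncard_univ]
  exact Set.ncard_le_ncard (Set.subset_univ _) (Set.toFinite _)

/-- `M` is deterministic on the visited cells: there is at most one state and direction for a
state `p` and a symbol `σ` which is the left end-marker or is written by some move that scans an
input letter. -/
def VisitedDet (strict : Prop) (M : LimAut A) : Prop :=
  ∀ (p : M.Q) (σ : Sym M.W),
    (σ = .lm ∨ ∃ (p' : M.Q) (a : A) (q' : M.Q) (b : M.W) (d' : Bool),
      (q', b, d') ∈ M.δ p' (.sym (M.inp a)) ∧ σ = .sym b) →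
    ∀ (q1 q2 : M.Q) (d1 d2 : Bool), fz strict M p σ q1 d1 → fz strict M p σ q2 d2 →
      q1 = q2 ∧ d1 = d2

theorem ext_FT' {strict : Prop} {M : LimAut A} {R : Set (M.Q × M.Q)} (hR : FT R) {σ : Sym M.W}
    (hσ : ∀ (p q1 q2 : M.Q) (d1 d2 : Bool), fz strict M p σ q1 d1 → fz strict M p σ q2 d2 →
      q1 = q2 ∧ d1 = d2) : FT (ext strict M R σ) := by
  rintro p q q' ⟨s, h1, h2⟩ ⟨s', h1', h2'⟩
  have h1 : ReflTransGen (fun y z => ∃ r, fz strict M y σ r false ∧ (r, z) ∈ R) p s := h1
  have h1' : ReflTransGen (fun y z => ∃ r, fz strict M y σ r false ∧ (r, z) ∈ R) p s' := h1'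
  have hu : Relator.RightUnique (fun y z => ∃ r, fz strict M y σ r false ∧ (r, z) ∈ R) := by
    rintro x y z ⟨r, hr, hr'⟩ ⟨r', hs, hs'⟩
    have := (hσ _ _ _ _ _ hr hs).1
    subst this
    exact hR _ _ _ hr' hs'
  have hss : s = s' := by
    rcases ReflTransGen.total_of_right_unique hu h1 h1' with h | h
    · rcases ReflTransGen.cases_head h with h3 | ⟨c, ⟨r, hr, _⟩, _⟩
      · exact h3
      · exact absurd (hσ _ _ _ _ _ hr h2).2 (by simp)
    · rcases ReflTransGen.cases_head h with h3 | ⟨c, ⟨r, hr, _⟩, _⟩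
      · exact h3.symm
      · exact absurd (hσ _ _ _ _ _ hr h2').2 (by simp)
  subst hss
  exact (hσ _ _ _ _ _ h2 h2').1

theorem tabs_FT {strict : Prop} {M : LimAut A} (h : VisitedDet strict M)
    (x : Set (M.Q × M.Q) × M.Q) (hx : x ∈ tabs strict M) : FT x.1 := by
  obtain ⟨u, hu⟩ := hx
  have key : ∀ (u : List A) (y x : Set (M.Q × M.Q) × M.Q), FT y.1 → runs strict M u y x →
      FT x.1 := by
    intro u
    induction u with
    | nil =>
      intro y x hy hr
      have : y = x := hr
      rw [← this]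
      exact hy
    | cons a u ih =>
      rintro y x hy ⟨z, ⟨q, b, d, hδ, hR, _⟩, h2⟩
      refine ih z x ?_ h2
      rw [hR]
      exact ext_FT' hy (h · _ (Or.inr ⟨y.2, a, q, b, d, hδ, rfl⟩))
  refine key u _ x ?_ hu
  exact ext_FT' (fun _ _ _ h => absurd h (Set.notMem_empty _)) (h · _ (Or.inl rfl))

theorem numTabs_visitedDet {strict : Prop} {M : LimAut A} (h : VisitedDet strict M) :
    numTabs strict M ≤ (Nat.card M.Q + 1) ^ Nat.card M.Q * Nat.card M.Q := by
  have := M.finQ
  have h1 : numTabs strict M ≤ Nat.card ({R : Set (M.Q × M.Q) // FT R} × M.Q) := by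
    unfold numTabs
    rw [← Nat.card_coe_set_eq]
    refine Nat.card_le_card_of_injective
      (fun x : tabs strict M => ((⟨x.1.1, tabs_FT h x.1 x.2⟩ : {R : Set (M.Q × M.Q) // FT R}),
        x.1.2)) ?_
    intro x y hxy
    simp only [Prod.mk.injEq, Subtype.mk.injEq] at hxy
    exact Subtype.ext (Prod.ext hxy.1 hxy.2)
  rw [Nat.card_prod] at h1
  exact h1.trans (Nat.mul_le_mul_right _ (card_FT M))

end Pool.Agent.Y527.LA
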