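import Mathlib
import Pool.Agent.H630R2.LA.Upper

set_option autoImplicit false

/-!
Every 1-limited automaton as a one-way automaton that never rewrites.
-/

namespace Pool.Agent.Y527.LA

open Relation
open Pool.Agent.H630R2.LA

variable {A : Type}

/-- The automaton never changes the content of a cell. -/
def NeverRewrites (M : LimAut A) : Prop :=
  ∀ q σ x, x ∈ M.δ q σ → σ.rewrite x.2.1 = σ

/-- Every move is a move to the right. -/
def OneWay (M : LimAut A) : Prop := ∀ q σ x, x ∈ M.δ q σ → x.2.2 = true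

/-- The moves of the one-way automaton. -/
inductive NT (strict : Prop) (M : LimAut A) : Option (Set (M.Q × M.Q) × M.Q) → Sym (Option A) →
    Option (Set (M.Q × M.Q) × M.Q) → Option A → Bool → Prop
  | go (x : Set (M.Q × M.Q) × M.Q) (a : A) (y : Set (M.Q × M.Q) × M.Q)
      (h : nstep strict M (.sym (M.inp a)) x y) :
      NT strict M (some x) (.sym (some a)) (some y) (some a) true
  | fin (x y : Set (M.Q × M.Q) × M.Q) (h : nstep strict M .rm x y) (hf : y.2 ∈ M.F) :
      NT strict M (some x) .rm none none true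

theorem finite_tab (M : LimAut A) : Finite (Set (M.Q × M.Q) × M.Q) := by
  have := M.finQ
  infer_instance

/-- The one-way automaton. -/
def nfaM [Finite A] (strict : Prop) (M : LimAut A) : LimAut A where
  Q := Option (Set (M.Q × M.Q) × M.Q)
  W := Option A
  finQ := by
    have := finite_tab M
    infer_instance
  finW := inferInstance
  inp := some
  inp_inj := fun _ _ h => Option.some.inj h
  δ := fun q σ => {z | NT strict M q σ z.1 z.2.1 z.2.2}
  q0 := some (ext strict M ∅ .lm, M.q0)
  F := {none}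

variable [Finite A] {strict : Prop} {M : LimAut A}

theorem nfaM_oneWay : OneWay (nfaM strict M) := by
  intro q σ x hx
  have hx' : NT strict M q σ x.1 x.2.1 x.2.2 := hx
  generalize x.1 = x1 at hx'
  generalize x.2.1 = x2 at hx'
  generalize x.2.2 = x3 at hx'
  cases hx' <;> rfl

theorem nfaM_never : NeverRewrites (nfaM strict M) := by
  intro q σ x hx
  have hx' : NT strict M q σ x.1 x.2.1 x.2.2 := hx
  show Sym.rewrite σ x.2.1 = σ
  generalize x.1 = x1 at hx'
  generalize x.2.1 = x2 at hx' ⊢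
  generalize x.2.2 = x3 at hx'
  cases hx' <;> rfl

theorem nfaM_reach (s' : Prop) (w : List A) (t : ℕ) (ht : t ≤ w.length) :
    ∀ o : Option (Set (M.Q × M.Q) × M.Q),
    (∃ T, nreach s' (nfaM strict M) (initTape (nfaM strict M) w) t (T, o)) ↔
      ∃ x, o = some x ∧ nreach strict M (initTape M w) t x := by
  induction t with
  | zero =>
    intro o
    constructor
    · rintro ⟨T, h⟩
      have h' : (T, o) = (ext s' (nfaM strict M) ∅ .lm, (nfaM strict M).q0) := h
      have h2 : o = some (ext strict M ∅ .lm, M.q0) := congrArg Prod.snd h'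
      exact ⟨_, h2, rfl⟩
    · rintro ⟨x, rfl, h⟩
      have h' : x = (ext strict M ∅ .lm, M.q0) := h
      subst h'
      exact ⟨_, rfl⟩
  | succ t ih =>
    intro o
    have hwt : w[t]? = some w[t] := List.getElem?_eq_getElem (by omega)
    have hcell : initTape M w (t + 1) = .sym (M.inp w[t]) := by
      simp only [initTape, hwt]
    have hcell' : initTape (nfaM strict M) w (t + 1) = .sym (some w[t]) := by
      simp only [initTape, hwt]
      rfl
    constructor
    · rintro ⟨T, ⟨T0, o0⟩, h1, q, b, d, h2, h3, h4, h5⟩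
      obtain ⟨x, hx, hr⟩ := (ih (by omega) o0).1 ⟨T0, h1⟩
      subst hx
      rw [hcell'] at h2
      have h2' : NT strict M (some x) (.sym (some w[t])) q b d := h2
      have key : ∃ y, nstep strict M (.sym (M.inp w[t])) x y ∧ q = some y ∧ d = true := by
        generalize hσ : (Sym.sym (some w[t]) : Sym (Option A)) = σ at h2'
        cases h2' with
        | go _ a y hy =>
          cases hσ
          exact ⟨y, hy, rfl, rfl⟩
        | fin _ y hy hf => exact absurd hσ (by simp)
      obtain ⟨y, hy, rfl, rfl⟩ := key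
      have h6 : o = some y := h4 rfl
      refine ⟨y, h6, x, hr, ?_⟩
      rw [hcell]
      exact hy
    · rintro ⟨y, rfl, x, hr, hy⟩
      obtain ⟨T0, h1⟩ := (ih (by omega) (some x)).2 ⟨x, rfl, hr⟩
      refine ⟨_, (T0, some x), h1, some y, some w[t], true, ?_, rfl, fun _ => rfl,
        fun h => absurd h (by simp)⟩
      rw [hcell']
      rw [hcell] at hy
      exact NT.go x _ y hy

theorem nfaM_language (s' : Prop) :
    (nfaM strict M).language s' = M.language strict := by
  ext w
  rw [mem_language, mem_language]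
  have hlast : initTape M w (w.length + 1) = .rm := by
    simp only [initTape, List.getElem?_eq_none (le_refl w.length)]
  have hlast' : initTape (nfaM strict M) w (w.length + 1) = .rm := by
    simp only [initTape, List.getElem?_eq_none (le_refl w.length)]
  constructor
  · rintro ⟨R, f, ⟨⟨T0, o0⟩, h1, q, b, d, h2, h3, h4, h5⟩, hf⟩
    obtain ⟨x, hx, hr⟩ := (nfaM_reach s' w w.length le_rfl o0).1 ⟨T0, h1⟩
    subst hx
    rw [hlast'] at h2
    have h2' : NT strict M (some x) .rm q b d := h2
    have key : ∃ y, nstep strict M .rm x y ∧ y.2 ∈ M.F := by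
      cases h2' with
      | fin _ y hy hf => exact ⟨y, hy, hf⟩
    obtain ⟨y, hy, hyF⟩ := key
    refine ⟨y.1, y.2, ⟨x, hr, ?_⟩, hyF⟩
    rw [hlast]
    exact hy
  · rintro ⟨R, f, ⟨x, hx, hs⟩, hf⟩
    rw [hlast] at hs
    obtain ⟨T0, h1⟩ := (nfaM_reach s' w w.length le_rfl (some x)).2 ⟨x, rfl, hx⟩
    refine ⟨_, none, ⟨(T0, some x), h1, none, none, true, ?_, rfl, fun _ => rfl,
        fun h => absurd h (by simp)⟩, rfl⟩
    rw [hlast']
    exact NT.fin x (R, f) hs hf

theorem nfaM_card : Nat.card (nfaM strict M).Q =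
    2 ^ (Nat.card M.Q * Nat.card M.Q) * Nat.card M.Q + 1 := by
  have := finite_tab M
  show Nat.card (Option (Set (M.Q × M.Q) × M.Q)) = _
  rw [Finite.card_option, card_table]

theorem nfaM_numTrans : (nfaM strict M).numTrans ≤
    Nat.card (nfaM strict M).Q * (Nat.card A + 3) * Nat.card (nfaM strict M).Q := by
  have := (nfaM strict M).finQ
  have := (nfaM strict M).finW
  have := finite_Sym (nfaM strict M).W
  have e : Nat.card (Sym (nfaM strict M).W) = Nat.card A + 3 := by
    rw [card_Sym]
    show Nat.card (Option A) + 2 = _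
    rw [Finite.card_option]
  rw [← e, ← Nat.card_prod, ← Nat.card_prod]
  unfold LimAut.numTrans
  have hinj : Set.InjOn (fun t : (nfaM strict M).Q × Sym (nfaM strict M).W ×
      (nfaM strict M).Q × (nfaM strict M).W × Bool => ((t.1, t.2.1), t.2.2.1))
      {t | t.2.2 ∈ (nfaM strict M).δ t.1 t.2.1} := by
    rintro ⟨p, σ, q, b, d⟩ hx ⟨p', σ', q', b', d'⟩ hx' h
    simp only [Prod.mk.injEq] at h
    obtain ⟨⟨rfl, rfl⟩, rfl⟩ := h
    have h1 : NT strict M p σ q b d := hx
    have h2 : NT strict M p σ q b' d' := hx'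
    cases h1 <;> cases h2 <;> rfl
  rw [← hinj.ncard_image, ← Set.ncard_univ]
  exact Set.ncard_le_ncard (Set.subset_univ _) (Set.toFinite _)

theorem nfaM_size : (nfaM strict M).size ≤ 2 ^ (2 * M.size ^ 2) := by
  have := M.finQ
  have hq : Nat.card M.Q + Nat.card A + 3 ≤ M.size := by
    unfold LimAut.size
    omega
  have hq1 : 1 ≤ Nat.card M.Q := by
    have : Nonempty M.Q := ⟨M.q0⟩
    exact Nat.card_pos
  have h1 := nfaM_numTrans (strict := strict) (M := M)
  have h2 := nfaM_card (strict := strict) (M := M)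
  have hsize : (nfaM strict M).size = Nat.card (nfaM strict M).Q + Nat.card A +
      (Nat.card (Option A) + 2) + 5 * (nfaM strict M).numTrans + 1 +
      ({none} : Set (Option (Set (M.Q × M.Q) × M.Q))).ncard := rfl
  rw [hsize, Set.ncard_singleton, Finite.card_option]
  have hB : Nat.card (nfaM strict M).Q ≤ 2 ^ (Nat.card M.Q ^ 2 + Nat.card M.Q) := by
    rw [h2, pow_add, sq]
    have h3 : Nat.card M.Q + 1 ≤ 2 ^ Nat.card M.Q := Nat.lt_two_pow_self
    have h4 : 1 ≤ 2 ^ (Nat.card M.Q * Nat.card M.Q) := Nat.one_le_two_pow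
    calc 2 ^ (Nat.card M.Q * Nat.card M.Q) * Nat.card M.Q + 1
        ≤ 2 ^ (Nat.card M.Q * Nat.card M.Q) * Nat.card M.Q +
          2 ^ (Nat.card M.Q * Nat.card M.Q) := by omega
      _ = 2 ^ (Nat.card M.Q * Nat.card M.Q) * (Nat.card M.Q + 1) := by ring
      _ ≤ _ := Nat.mul_le_mul_left _ h3
  have hn : M.size < 2 ^ M.size := Nat.lt_two_pow_self
  generalize M.size = n at *
  generalize (nfaM strict M).numTrans = T at *
  generalize Nat.card (nfaM strict M).Q = K at *
  generalize Nat.card M.Q = s at *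
  generalize Nat.card A = a at *
  have hB1 : 1 ≤ 2 ^ (s ^ 2 + s) := Nat.one_le_two_pow
  have hfin : 2 ^ (s ^ 2 + s) * 2 ^ (s ^ 2 + s) * 2 ^ n * 8 ≤ 2 ^ (2 * n ^ 2) := by
    have e : 2 ^ (s ^ 2 + s) * 2 ^ (s ^ 2 + s) * 2 ^ n * 8 =
        2 ^ (2 * (s ^ 2 + s) + n + 3) := by
      rw [pow_add 2 _ 3, pow_add 2 _ n, two_mul, pow_add 2 (s ^ 2 + s)]
      norm_num
    rw [e]
    apply Nat.pow_le_pow_right (by omega)
    obtain ⟨r, rfl⟩ : ∃ r, n = s + 3 + r := ⟨n - s - 3, by omega⟩
    nlinarith [Nat.zero_le r, Nat.zero_le s, Nat.zero_le (r * s)]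
  refine le_trans ?_ hfin
  generalize 2 ^ (s ^ 2 + s) = B at *
  have hK2 : K * (a + 3) * K ≤ B * n * B :=
    Nat.mul_le_mul (Nat.mul_le_mul hB (by omega)) hB
  have e2 : B * n * B = B * B * n := by ring
  have hBB : B ≤ B * B := Nat.le_mul_of_pos_left _ hB1
  have h7 : n ≤ B * B * n := Nat.le_mul_of_pos_left _ (Nat.mul_pos hB1 hB1)
  have h8 : B * B ≤ B * B * n := Nat.le_mul_of_pos_right _ (by omega)
  have h9 : 8 * (B * B * n) ≤ B * B * 2 ^ n * 8 := by
    have : B * B * n ≤ B * B * 2 ^ n := Nat.mul_le_mul_left _ hn.le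
    omega
  have h10 : T ≤ B * B * n := by
    rw [← e2]
    exact h1.trans hK2
  omega

end Pool.Agent.Y527.LA
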